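import Pool.Agent.W516.KU.Defs
import Pool.Agent.W440.DK.SPAN

/-!
# The root vectors generate (task KU-UE)
-/

set_option autoImplicit false

namespace Pool.Agent.W32.KU

open Module Pool.Agent.W516.K3 Pool.Agent.W516.KU

variable {T : Type} [AddCommGroup T] [Module ℝ T]

theorem wdg_apply (b : T →ₗ[ℝ] T →ₗ[ℝ] ℝ) (u v t : T) :
    wdg b u v t = b v t • u - b u t • v := rfl

theorem xx_apply (b : T →ₗ[ℝ] T →ₗ[ℝ] ℝ) (J : Module.End ℝ T) (u v t : T) :
    xx b J u v t = b v t • u - b u t • v + (b (J v) t • J u - b (J u) t • J v) := rfl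

section herm

variable {b : T →ₗ[ℝ] T →ₗ[ℝ] ℝ} {J : Module.End ℝ T}

theorem JJ (h : Herm b J) (u : T) : J (J u) = -u := by
  have := LinearMap.congr_fun h.sq u
  simpa using this

theorem bJ (h : Herm b J) (u v : T) : b (J u) v = -b u (J v) := by
  have h1 := h.isom (J u) v
  rw [JJ h, map_neg, LinearMap.neg_apply] at h1
  exact h1.symm

theorem bJself (h : Herm b J) (u : T) : b u (J u) = 0 := by
  have h1 := bJ h u u
  rw [h.symm] at h1
  linarith

theorem xx_self (u : T) : xx b J u u = 0 := by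
  ext t
  rw [xx_apply]
  simp

theorem xx_anti (u v : T) : xx b J u v = -xx b J v u := by
  ext t
  rw [LinearMap.neg_apply, xx_apply, xx_apply]
  abel

theorem xx_J (h : Herm b J) (u v : T) : xx b J (J u) v = -xx b J u (J v) := by
  ext t
  rw [LinearMap.neg_apply, xx_apply, xx_apply, JJ h, JJ h, map_neg, map_neg,
    LinearMap.neg_apply, LinearMap.neg_apply]
  simp only [neg_smul, smul_neg]
  abel

theorem xx_add_right (u v w : T) : xx b J u (v + w) = xx b J u v + xx b J u w := by
  ext t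
  rw [LinearMap.add_apply, xx_apply, xx_apply, xx_apply]
  simp only [map_add, LinearMap.add_apply, add_smul, smul_add]
  abel

theorem xx_smul_right (c : ℝ) (u v : T) : xx b J u (c • v) = c • xx b J u v := by
  ext t
  rw [LinearMap.smul_apply, xx_apply, xx_apply]
  simp only [map_smul, LinearMap.smul_apply, smul_eq_mul, smul_sub, smul_add, smul_smul]
  rw [mul_comm (b u t) c, mul_comm (b (J u) t) c]

theorem xx_add_left (u v w : T) : xx b J (u + v) w = xx b J u w + xx b J v w := by
  rw [xx_anti, xx_add_right, neg_add, ← xx_anti, ← xx_anti]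

theorem xx_smul_left (c : ℝ) (u v : T) : xx b J (c • u) v = c • xx b J u v := by
  rw [xx_anti, xx_smul_right, ← smul_neg, ← xx_anti]

/-- the commutator with a skew element -/
theorem xx_comm {a : Module.End ℝ T} (hs : ∀ u v, b (a u) v + b u (a v) = 0)
    (hJ : a * J = J * a) (u v : T) :
    a * xx b J u v - xx b J u v * a = xx b J (a u) v + xx b J u (a v) := by
  have hJ' : ∀ w, a (J w) = J (a w) := fun w => LinearMap.congr_fun hJ w
  have hs' : ∀ u v, b u (a v) = -b (a u) v := fun u v => by linarith [hs u v]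
  ext t
  rw [LinearMap.sub_apply, LinearMap.add_apply, Module.End.mul_apply, Module.End.mul_apply,
    xx_apply, xx_apply, xx_apply, xx_apply]
  simp only [map_add, map_sub, map_smul, hs', hJ']
  simp only [neg_smul]
  abel

variable [FiniteDimensional ℝ T]

theorem tr_wdg (h : Herm b J) (u v : T) :
    LinearMap.trace ℝ T (wdg b u v * J) = 2 * b v (J u) := by
  have e : wdg b u v * J = ((b v).comp J).smulRight u - ((b u).comp J).smulRight v := by
    ext t
    rfl
  rw [e, map_sub, LinearMap.trace_smulRight, LinearMap.trace_smulRight, LinearMap.comp_apply, LinearMap.comp_apply,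
    ← h.symm (J v) u, bJ h]
  ring

theorem tr_xx (h : Herm b J) (u v : T) :
    LinearMap.trace ℝ T (xx b J u v * J) = 4 * b v (J u) := by
  unfold xx
  rw [add_mul, map_add, tr_wdg h, tr_wdg h, JJ h, map_neg, bJ h, neg_neg]
  ring

end herm

section main

variable {b : T →ₗ[ℝ] T →ₗ[ℝ] ℝ} {J : Module.End ℝ T} [FiniteDimensional ℝ T]
  {g : Submodule ℝ (Module.End ℝ T)} {e f : T}

/-- the elements of `g` with trace condition -/
noncomputable def g0 (J : Module.End ℝ T) (g : Submodule ℝ (Module.End ℝ T)) :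
    Submodule ℝ (Module.End ℝ T) where
  carrier := {a | a ∈ g ∧ LinearMap.trace ℝ T (a * J) = 0}
  zero_mem' := ⟨g.zero_mem, by rw [zero_mul, map_zero]⟩
  add_mem' := by
    rintro x y ⟨h1, h2⟩ ⟨h3, h4⟩
    exact ⟨g.add_mem h1 h3, by rw [add_mul, map_add, h2, h4, add_zero]⟩
  smul_mem' := by
    rintro c x ⟨h1, h2⟩
    exact ⟨g.smul_mem c h1, by rw [smul_mul_assoc, map_smul, h2, smul_zero]⟩

theorem mem_g0 {a : Module.End ℝ T} :
    a ∈ g0 J g ↔ a ∈ g ∧ LinearMap.trace ℝ T (a * J) = 0 := Iff.rfl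

/-- the space of the proof -/
noncomputable def SS (b : T →ₗ[ℝ] T →ₗ[ℝ] ℝ) (J : Module.End ℝ T)
    (g : Submodule ℝ (Module.End ℝ T)) (e f : T) : Submodule ℝ (Module.End ℝ T) :=
  g0 J g ⊔ Submodule.span ℝ {xx b J f (J e)}

theorem R_mem : xx b J f (J e) ∈ SS b J g e f :=
  Submodule.mem_sup_right (Submodule.mem_span_singleton_self _)

theorem g0_mem {a : Module.End ℝ T} (h : a ∈ g0 J g) : a ∈ SS b J g e f :=
  Submodule.mem_sup_left h

theorem mem_T0 {t : T} : t ∈ T0 b J e f ↔
    ((b e t = 0 ∧ b f t = 0) ∧ b (J e) t = 0) ∧ b (J f) t = 0 := Iff.rfl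

theorem J_T0 (h : Herm b J) {t : T} (ht : t ∈ T0 b J e f) : J t ∈ T0 b J e f := by
  rw [mem_T0] at ht ⊢
  obtain ⟨⟨⟨h1, h2⟩, h3⟩, h4⟩ := ht
  have e1 := bJ h e t
  have e2 := bJ h f t
  have e3 := h.isom e t
  have e4 := h.isom f t
  refine ⟨⟨⟨by linarith, by linarith⟩, by linarith⟩, by linarith⟩

theorem dec (h : Herm b J) (hp : HypJ b J e f) (u : T) : ∃ (α β γ δ : ℝ) (t : T),
    t ∈ T0 b J e f ∧ u = α • e + β • J e + γ • f + δ • J f + t := by
  have hfe : b f e = 1 := by rw [h.symm]; exact hp.ef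
  have hee := hp.ee
  have hff := hp.ff
  have hef := hp.ef
  have heJf := hp.eJf
  have heJe := bJself h e
  have hfJf := bJself h f
  have hfJe : b f (J e) = 0 := by
    rw [h.symm, bJ h, heJf, neg_zero]
  have h1 := h.isom e e
  have h2 := h.isom e f
  have h3 := h.isom f e
  have h4 := h.isom f f
  have h5 : b (J e) e = 0 := by rw [h.symm]; exact heJe
  have h6 : b (J e) f = 0 := by rw [h.symm]; exact hfJe
  have h7 : b (J f) e = 0 := by rw [h.symm]; exact heJf
  have h8 : b (J f) f = 0 := by rw [h.symm]; exact hfJf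
  refine ⟨b f u, b (J f) u, b e u, b (J e) u,
    u - (b f u • e + b (J f) u • J e + b e u • f + b (J e) u • J f), ?_, by abel⟩
  rw [mem_T0]
  simp only [map_sub, map_add, map_smul, smul_eq_mul, hfe, hee, hff, hef, heJf, heJe, hfJf, hfJe,
    h1, h2, h3, h4, h5, h6, h7, h8]
  refine ⟨⟨⟨by ring, by ring⟩, by ring⟩, by ring⟩

/-- a test for the second argument -/
theorem test (h : Herm b J) (hp : HypJ b J e f) {p : T}
    (h1 : xx b J p e ∈ SS b J g e f) (h2 : xx b J p (J e) ∈ SS b J g e f)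
    (h3 : xx b J p f ∈ SS b J g e f) (h4 : xx b J p (J f) ∈ SS b J g e f)
    (h5 : ∀ t ∈ T0 b J e f, xx b J p t ∈ SS b J g e f) (v : T) :
    xx b J p v ∈ SS b J g e f := by
  obtain ⟨α, β, γ, δ, t, ht, rfl⟩ := dec h hp v
  rw [xx_add_right, xx_add_right, xx_add_right, xx_add_right, xx_smul_right, xx_smul_right,
    xx_smul_right, xx_smul_right]
  exact Submodule.add_mem _ (Submodule.add_mem _ (Submodule.add_mem _ (Submodule.add_mem _
    (Submodule.smul_mem _ _ h1) (Submodule.smul_mem _ _ h2)) (Submodule.smul_mem _ _ h3))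
    (Submodule.smul_mem _ _ h4)) (h5 t ht)

theorem all_mem (hg : GoodJ b J g) (hp : HypJ b J e f) (hh : xx b J e f ∈ g)
    (hE : xx b J e (J e) ∈ g) (hF : xx b J f (J f) ∈ g)
    (hT : ∀ t ∈ T0 b J e f, xx b J e t ∈ g ∧ xx b J f t ∈ g) (u v : T) :
    xx b J u v ∈ SS b J g e f := by
  have h := hg.herm
  have hfJe : b f (J e) = 0 := by rw [h.symm, bJ h, hp.eJf, neg_zero]
  -- the elements of g0
  have g_ef : xx b J e f ∈ g0 J g := ⟨hh, by rw [tr_xx h, hfJe, mul_zero]⟩
  have g_E : xx b J e (J e) ∈ g0 J g := ⟨hE, by rw [tr_xx h, h.isom, hp.ee, mul_zero]⟩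
  have g_F : xx b J f (J f) ∈ g0 J g := ⟨hF, by rw [tr_xx h, h.isom, hp.ff, mul_zero]⟩
  have g_et : ∀ t ∈ T0 b J e f, xx b J e t ∈ g0 J g := by
    intro t ht
    refine ⟨(hT t ht).1, ?_⟩
    rw [mem_T0] at ht
    rw [tr_xx h, h.symm, ht.1.2, mul_zero]
  have g_ft : ∀ t ∈ T0 b J e f, xx b J f t ∈ g0 J g := by
    intro t ht
    refine ⟨(hT t ht).2, ?_⟩
    rw [mem_T0] at ht
    rw [tr_xx h, h.symm, ht.2, mul_zero]
  have g_ts : ∀ t ∈ T0 b J e f, ∀ s ∈ T0 b J e f, xx b J t s ∈ SS b J g e f := by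
    intro t ht s hs
    obtain ⟨a1, a2⟩ := hT t ht
    obtain ⟨c1, c2⟩ := hT s hs
    have hbr : xx b J e t * xx b J f s - xx b J f s * xx b J e t ∈ g0 J g := by
      refine ⟨hg.bracket _ a1 _ c2, ?_⟩
      have hc := hg.commJ _ a1
      have t1 : LinearMap.trace ℝ T (xx b J e t * xx b J f s * J) =
          LinearMap.trace ℝ T (xx b J f s * (J * xx b J e t)) := by
        rw [mul_assoc, LinearMap.trace_mul_comm, mul_assoc]
      rw [sub_mul, map_sub, t1, ← hc, mul_assoc (xx b J f s), sub_self]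
    rw [xx_comm (hg.skew _ a1) (hg.commJ _ a1)] at hbr
    have ht' := mem_T0.1 ht
    have hs' := mem_T0.1 hs
    have htf : b t f = 0 := by rw [h.symm]; exact ht'.1.1.2
    have hJtf : b (J t) f = 0 := by
      have := mem_T0.1 (J_T0 h ht)
      rw [h.symm]
      exact this.1.1.2
    have e1 : xx b J e t f = -t := by
      rw [xx_apply, htf, hp.ef, hJtf, h.symm (J e) f, hfJe]
      simp
    have e2 : xx b J e t s = b t s • e + b (J t) s • J e := by
      rw [xx_apply, hs'.1.1.1, hs'.1.2]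
      simp
    rw [e1, e2, xx_add_right, xx_smul_right, xx_smul_right] at hbr
    have e3 : xx b J (-t) s = -xx b J t s := by
      have := xx_smul_left (b := b) (J := J) (-1) t s
      rw [neg_one_smul, neg_one_smul] at this
      exact this
    rw [e3] at hbr
    have e4 : xx b J t s = -(-xx b J t s + (b t s • xx b J f e + b (J t) s • xx b J f (J e))) +
        (b t s • xx b J f e + b (J t) s • xx b J f (J e)) := by abel
    rw [e4]
    refine Submodule.add_mem _ (Submodule.neg_mem _ (g0_mem hbr)) (Submodule.add_mem _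
      (Submodule.smul_mem _ _ ?_) (Submodule.smul_mem _ _ R_mem))
    rw [xx_anti]
    exact Submodule.neg_mem _ (g0_mem g_ef)
  -- the first argument
  have key_e : ∀ v, xx b J e v ∈ SS b J g e f := by
    refine test h hp ?_ (g0_mem g_E) (g0_mem g_ef) ?_ (fun t ht => g0_mem (g_et t ht))
    · rw [xx_self]; exact Submodule.zero_mem _
    · have e1 : xx b J e (J f) = xx b J f (J e) := by
        have h1 := xx_J h e f
        rw [xx_anti (J e) f] at h1
        exact (neg_injective h1).symm
      rw [e1]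
      exact R_mem
  have key_f : ∀ v, xx b J f v ∈ SS b J g e f := by
    refine test h hp ?_ R_mem ?_ (g0_mem g_F) (fun t ht => g0_mem (g_ft t ht))
    · rw [xx_anti]; exact Submodule.neg_mem _ (g0_mem g_ef)
    · rw [xx_self]; exact Submodule.zero_mem _
  have key_t : ∀ t ∈ T0 b J e f, ∀ v, xx b J t v ∈ SS b J g e f := by
    intro t ht
    refine test h hp ?_ ?_ ?_ ?_ (g_ts t ht)
    · rw [xx_anti]; exact Submodule.neg_mem _ (key_e _)
    · rw [xx_anti, xx_J h, neg_neg]; exact key_e _
    · rw [xx_anti]; exact Submodule.neg_mem _ (key_f _)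
    · rw [xx_anti, xx_J h, neg_neg]; exact key_f _
  have key_J : ∀ p, (∀ v, xx b J p v ∈ SS b J g e f) → ∀ v, xx b J (J p) v ∈ SS b J g e f := by
    intro p h1 v
    rw [xx_J h]
    exact Submodule.neg_mem _ (h1 _)
  obtain ⟨α, β, γ, δ, t, ht, rfl⟩ := dec h hp u
  rw [xx_add_left, xx_add_left, xx_add_left, xx_add_left, xx_smul_left, xx_smul_left,
    xx_smul_left, xx_smul_left]
  exact Submodule.add_mem _ (Submodule.add_mem _ (Submodule.add_mem _ (Submodule.add_mem _
    (Submodule.smul_mem _ _ (key_e v)) (Submodule.smul_mem _ _ (key_J e key_e v)))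
    (Submodule.smul_mem _ _ (key_f v))) (Submodule.smul_mem _ _ (key_J f key_f v))) (key_t t ht v)

end main

theorem T_UE : Pool.Agent.W516.KU.S_UE := by
  intro T _ _ _ b J g hg e f hp hh hE hF hT x hx hxJ hxt
  have h := hg.herm
  have hall := all_mem hg hp hh hE hF hT
  have hspan := Pool.Agent.W440.DK.T_SPAN ℝ T b h.symm h.nondeg x hx
  have h1 : ∀ y ∈ Submodule.span ℝ {y | ∃ u v, y = wdg b u v}, y - J * y * J ∈ SS b J g e f := by
    intro y hy
    induction hy using Submodule.span_induction with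
    | mem y hy =>
      obtain ⟨u, v, rfl⟩ := hy
      have e1 : wdg b u v - J * wdg b u v * J = xx b J u v := by
        ext t
        rw [LinearMap.sub_apply, Module.End.mul_apply, Module.End.mul_apply, xx_apply, wdg_apply,
          wdg_apply, map_sub, map_smul, map_smul, bJ h v t, bJ h u t]
        simp only [neg_smul]
        abel
      rw [e1]
      exact hall u v
    | zero => rw [mul_zero, zero_mul, sub_zero]; exact Submodule.zero_mem _
    | add y z _ _ h1 h2 =>
      have e1 : y + z - J * (y + z) * J = (y - J * y * J) + (z - J * z * J) := by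
        rw [mul_add, add_mul]; abel
      rw [e1]
      exact Submodule.add_mem _ h1 h2
    | smul c y _ h1 =>
      have e1 : c • y - J * (c • y) * J = c • (y - J * y * J) := by
        rw [mul_smul_comm, smul_mul_assoc, smul_sub]
      rw [e1]
      exact Submodule.smul_mem _ _ h1
  have h2 := h1 x hspan
  have h3 : x - J * x * J = (2 : ℝ) • x := by
    rw [← hxJ, mul_assoc, h.sq, mul_neg_one, sub_neg_eq_add, two_smul]
  rw [h3] at h2
  have h4 : x ∈ SS b J g e f := by
    have := Submodule.smul_mem _ (2⁻¹ : ℝ) h2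
    rw [smul_smul, inv_mul_cancel₀ (by norm_num), one_smul] at this
    exact this
  rw [SS, Submodule.mem_sup] at h4
  obtain ⟨a, ha, r, hr, rfl⟩ := h4
  obtain ⟨c, rfl⟩ := Submodule.mem_span_singleton.1 hr
  rw [add_mul, map_add, ha.2, zero_add, smul_mul_assoc, map_smul, tr_xx h, h.isom, hp.ef,
    smul_eq_mul] at hxt
  have hc : c = 0 := by linarith
  rw [hc, zero_smul, add_zero]
  exact ha.1

end Pool.Agent.W32.KU
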